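import Mathlib
import Pool.Agent.W762.EC.SSA
import Pool.Agent.H343R2.EH.Inter
import Pool.Agent.H343R2.EH.Pointwise
import Pool.Agent.H343R2.EH.Smoothed

/-!
Primes in residue classes and characters of small and large conductor, without smoothing
-/

set_option autoImplicit false

open Finset

namespace Pool.Agent.D0H48.MO

open H343E H343E.InterC
open Pool.Agent.H410R2 Pool.Agent.H398R2.BV Pool.Agent.Helper112 Pool.Agent.Helper112.BLB
open Pool.Agent.H262R3.Lk.SWQ (psiC)

/-- the small conductors -/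
noncomputable def SU (X : ℝ) (q F : ℕ) [NeZero q] : ℝ :=
  (1 / (Nat.totient q : ℝ)) * ∑ χ ∈ smallC q F, ‖psiC X q χ‖

/-- the large conductors -/
noncomputable def VU (X : ℝ) (q F a : ℕ) [NeZero q] : ℂ :=
  (1 / (Nat.totient q : ℂ)) * ∑ χ ∈ largeC q F, χ ((a : ZMod q)⁻¹) * psiC X q χ

theorem sum_ncU (X : ℝ) (hX : 1 ≤ X) (m : ℕ) (hm : 1 ≤ m) :
    ∑ n ∈ (Icc 1 ⌊X⌋₊).filter (fun n => ¬ n.Coprime m), ArithmeticFunction.vonMangoldt n ≤
      m.primeFactors.card * Real.log X := by
  refine (sum_not_coprime _ m hm).trans ?_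
  apply mul_le_mul_of_nonneg_left _ (by positivity)
  exact log_natCast_le _ X hX (Nat.floor_le (by linarith))

theorem psiC_changeLevel (X : ℝ) (hX : 1 ≤ X) (m f : ℕ) (hm : 1 ≤ m) (h : f ∣ m)
    (ψ : DirichletCharacter ℂ f) :
    ‖psiC X m (DirichletCharacter.changeLevel h ψ)‖ ≤
      ‖psiC X f ψ‖ + m.primeFactors.card * Real.log X := by
  have hf : NeZero m := ⟨by omega⟩
  have e : psiC X m (DirichletCharacter.changeLevel h ψ) = psiC X f ψ -
      ∑ n ∈ (Icc 1 ⌊X⌋₊).filter (fun n => ¬ n.Coprime m),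
        ((ArithmeticFunction.vonMangoldt n : ℝ) : ℂ) * ψ (n : ZMod f) := by
    unfold psiC
    rw [sum_filter, ← sum_sub_distrib]
    apply sum_congr rfl
    intro n _
    by_cases hn : n.Coprime m
    · have h1 := DirichletCharacter.changeLevel_eq_cast_of_dvd' ψ h (a := (n : ℤ))
        (by exact_mod_cast Nat.isCoprime_iff_coprime.mpr hn)
      push_cast at h1
      rw [h1, if_neg (not_not.mpr hn), sub_zero]
    · rw [MulChar.map_nonunit _ (fun hu => hn ((ZMod.isUnit_iff_coprime n _).mp hu)), if_pos hn]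
      ring
  rw [e]
  refine (norm_sub_le _ _).trans ?_
  apply add_le_add_right
  refine (norm_sum_le _ _).trans ?_
  refine le_trans ?_ (sum_ncU X hX m hm)
  apply sum_le_sum
  intro n hn
  have h2 := ψ.norm_le_one (n : ZMod f)
  have h3 : 0 ≤ ArithmeticFunction.vonMangoldt n := ArithmeticFunction.vonMangoldt_nonneg
  rw [norm_mul, Complex.norm_real, Real.norm_eq_abs, abs_of_nonneg h3]
  calc ArithmeticFunction.vonMangoldt n * ‖ψ (n : ZMod f)‖ ≤ ArithmeticFunction.vonMangoldt n * 1 := by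
        gcongr
    _ = _ := mul_one _

theorem pointU (X : ℝ) (hX : 1 ≤ X) (q F a : ℕ) [NeZero q] (ha : a.Coprime q) :
    |psiAP X q a - psi1 X / (Nat.totient q : ℝ)| ≤
      SU X q F + ‖VU X q F a‖ + q.primeFactors.card * Real.log X / (Nat.totient q : ℝ) := by
  classical
  have hq : 1 ≤ q := NeZero.one_le
  set P0 := ∑ n ∈ (Icc 1 ⌊X⌋₊).filter (fun n => n.Coprime q),
        ArithmeticFunction.vonMangoldt n with hP0
  have hφ : (1:ℝ) ≤ Nat.totient q := by exact_mod_cast Nat.totient_pos.mpr (by omega)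
  have key : ((psiAP X q a - (1 / (Nat.totient q : ℝ)) * P0 : ℝ) : ℂ) =
      (1 / (Nat.totient q : ℂ)) *
      ∑ χ ∈ (univ : Finset (DirichletCharacter ℂ q)).filter (fun χ => χ ≠ 1),
        χ ((a : ZMod q)⁻¹) * psiC X q χ := by
    have h1 : psiAP X q a - (1 / (Nat.totient q : ℝ)) * P0 =
        ∑ n ∈ Icc 1 ⌊X⌋₊, ArithmeticFunction.vonMangoldt n *
          ((if n ≡ a [MOD q] then (1 : ℝ) else 0) -
            (if n.Coprime q then (1 : ℝ) / (Nat.totient q : ℝ) else 0)) := by
      rw [hP0]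
      unfold psiAP
      rw [sum_filter, sum_filter, mul_sum, ← sum_sub_distrib]
      apply sum_congr rfl
      intro n _
      split_ifs <;> ring
    rw [h1, Complex.ofReal_sum, mul_sum]
    have h2 : ∀ n ∈ Icc 1 ⌊X⌋₊, ((ArithmeticFunction.vonMangoldt n *
          ((if n ≡ a [MOD q] then (1 : ℝ) else 0) -
            (if n.Coprime q then (1 : ℝ) / (Nat.totient q : ℝ) else 0)) : ℝ) : ℂ) =
        ∑ χ ∈ (univ : Finset (DirichletCharacter ℂ q)).filter (fun χ => χ ≠ 1),
          (1 / (Nat.totient q : ℂ)) * (χ ((a : ZMod q)⁻¹) *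
            (((ArithmeticFunction.vonMangoldt n : ℝ) : ℂ) * χ (n : ZMod q))) := by
      intro n _
      rw [Complex.ofReal_mul, bracket q a ha n, mul_sum, mul_sum]
      apply sum_congr rfl
      intro χ _
      push_cast
      ring
    rw [sum_congr rfl h2, sum_comm]
    apply sum_congr rfl
    intro χ _
    unfold psiC
    rw [mul_sum, mul_sum]
  -- split the characters
  have hsplit : ∑ χ ∈ (univ : Finset (DirichletCharacter ℂ q)).filter (fun χ => χ ≠ 1),
        χ ((a : ZMod q)⁻¹) * psiC X q χ =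
      ∑ χ ∈ smallC q F, χ ((a : ZMod q)⁻¹) * psiC X q χ +
      ∑ χ ∈ largeC q F, χ ((a : ZMod q)⁻¹) * psiC X q χ := by
    rw [← sum_filter_add_sum_filter_not ((univ : Finset (DirichletCharacter ℂ q)).filter
      (fun χ => χ ≠ 1)) (fun χ => χ.conductor ≤ F)]
    congr 1
    · apply sum_congr _ fun _ _ => rfl
      unfold smallC
      rw [filter_filter]
      congr!
    · apply sum_congr _ fun _ _ => rfl
      unfold largeC
      rw [filter_filter]
      ext χ
      simp only [mem_filter, mem_univ, true_and, not_le]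
  have h1 : |psiAP X q a - (1 / (Nat.totient q : ℝ)) * P0| ≤ SU X q F + ‖VU X q F a‖ := by
    rw [← Real.norm_eq_abs, ← Complex.norm_real, key, hsplit, mul_add]
    refine (norm_add_le _ _).trans (add_le_add ?_ le_rfl)
    unfold SU
    rw [norm_mul]
    have h1 : ‖(1 / (Nat.totient q : ℂ))‖ = 1 / (Nat.totient q : ℝ) := by
      rw [norm_div, norm_one, Complex.norm_natCast]
    rw [h1]
    apply mul_le_mul_of_nonneg_left _ (by positivity)
    refine (norm_sum_le _ _).trans (sum_le_sum ?_)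
    intro χ _
    rw [norm_mul]
    have : ‖χ ((a : ZMod q)⁻¹)‖ ≤ 1 := χ.norm_le_one _
    calc _ ≤ 1 * ‖psiC X q χ‖ :=
          mul_le_mul_of_nonneg_right this (norm_nonneg _)
      _ = _ := one_mul _
  -- principal character
  set E := (q.primeFactors.card : ℝ) * Real.log X with hE
  have hE0 : 0 ≤ E := mul_nonneg (Nat.cast_nonneg _) (Real.log_nonneg hX)
  have h5 : psi1 X - P0 =
      ∑ n ∈ (Icc 1 ⌊X⌋₊).filter (fun n => ¬ n.Coprime q), ArithmeticFunction.vonMangoldt n := by
    unfold psi1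
    rw [← sum_filter_add_sum_filter_not (Icc 1 ⌊X⌋₊) (fun n => n.Coprime q)]
    ring
  have h6 := sum_ncU X hX q hq
  have h7 : 0 ≤ ∑ n ∈ (Icc 1 ⌊X⌋₊).filter (fun n => ¬ n.Coprime q),
        ArithmeticFunction.vonMangoldt n :=
    sum_nonneg fun n _ => ArithmeticFunction.vonMangoldt_nonneg
  have h8 : |(1 / (Nat.totient q : ℝ)) * P0 - psi1 X / (Nat.totient q : ℝ)| ≤
      E / (Nat.totient q : ℝ) := by
    have : (1 / (Nat.totient q : ℝ)) * P0 - psi1 X / (Nat.totient q : ℝ) =
        -((psi1 X - P0) / (Nat.totient q : ℝ)) := by ring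
    rw [this, abs_neg, h5, abs_of_nonneg (by positivity)]
    exact div_le_div_of_nonneg_right h6 (by linarith)
  calc |psiAP X q a - psi1 X / (Nat.totient q : ℝ)| =
      |(psiAP X q a - (1 / (Nat.totient q : ℝ)) * P0) +
        ((1 / (Nat.totient q : ℝ)) * P0 - psi1 X / (Nat.totient q : ℝ))| := by
        congr 1; ring
    _ ≤ |psiAP X q a - (1 / (Nat.totient q : ℝ)) * P0| +
        |(1 / (Nat.totient q : ℝ)) * P0 - psi1 X / (Nat.totient q : ℝ)| := abs_add_le _ _
    _ ≤ _ := by linarith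

/-- the small conductors, by the theorem of Siegel and Walfisz -/
theorem SU_le (X : ℝ) (hX : 1 ≤ X) (q F : ℕ) [NeZero q] (D₀ : ℝ) (hD : 0 ≤ D₀)
    (hSW : ∀ f : ℕ, 1 < f → f ≤ F → ∀ ψ ∈ Prim f, ‖psiC X f ψ‖ ≤ D₀) :
    SU X q F ≤ (1 / (Nat.totient q : ℝ)) *
      ((F : ℝ) ^ 2 * (D₀ + q.primeFactors.card * Real.log X)) := by
  classical
  unfold SU
  apply mul_le_mul_of_nonneg_left _ (by positivity)
  have hE0 : 0 ≤ (q.primeFactors.card : ℝ) * Real.log X :=
    mul_nonneg (Nat.cast_nonneg _) (Real.log_nonneg hX)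
  have h := step3 q (smallC q F) ((q.divisors.filter (fun f => f ≠ 1)).filter (fun f => f ≤ F))
    (by
      intro f hf
      rw [mem_filter, mem_filter, Nat.mem_divisors] at hf
      exact hf.1.1.1)
    (by
      intro χ hχ
      rw [mem_smallC] at hχ
      rw [mem_filter, mem_filter, Nat.mem_divisors]
      refine ⟨⟨⟨χ.conductor_dvd_level, NeZero.ne q⟩, ?_⟩, hχ.2⟩
      intro h
      exact hχ.1 (DirichletCharacter.eq_one_iff_conductor_eq_one.mpr h))
    (fun χ => ‖psiC X q χ‖) (fun χ => norm_nonneg _)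
    (fun f ψ => ‖psiC X f ψ‖ + q.primeFactors.card * Real.log X)
    (fun f h ψ => psiC_changeLevel X hX q f (Nat.pos_of_ne_zero (NeZero.ne q)) h ψ)
  refine h.trans ?_
  have h2 : ∀ f ∈ (q.divisors.filter (fun f => f ≠ 1)).filter (fun f => f ≤ F),
      ∑ ψ ∈ Prim f, (‖psiC X f ψ‖ + q.primeFactors.card * Real.log X) ≤
        (F : ℝ) * (D₀ + q.primeFactors.card * Real.log X) := by
    intro f hf
    rw [mem_filter, mem_filter, Nat.mem_divisors] at hf
    have hf0 : f ≠ 0 := by
      rintro rfl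
      exact NeZero.ne q (Nat.eq_zero_of_zero_dvd hf.1.1.1)
    have hf1 : 1 < f := by
      have := hf.1.2
      omega
    calc ∑ ψ ∈ Prim f, (‖psiC X f ψ‖ + q.primeFactors.card * Real.log X) ≤
        ∑ ψ ∈ Prim f, (D₀ + q.primeFactors.card * Real.log X) :=
          sum_le_sum fun ψ hψ => by
            have := hSW f hf1 hf.2 ψ hψ
            linarith
      _ = ((Prim f).card : ℝ) * (D₀ + q.primeFactors.card * Real.log X) := by
          rw [sum_const, nsmul_eq_mul]
      _ ≤ _ := by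
          apply mul_le_mul_of_nonneg_right _ (by positivity)
          have h3 := card_prim_le (f := f) (by omega)
          have h4 : (Nat.totient f : ℝ) ≤ f := by exact_mod_cast Nat.totient_le f
          have h5 : (f : ℝ) ≤ F := by exact_mod_cast hf.2
          linarith
  refine (sum_le_sum h2).trans ?_
  rw [sum_const, nsmul_eq_mul, sq, mul_assoc (F : ℝ) (F : ℝ)]
  apply mul_le_mul_of_nonneg_right _ (by positivity)
  have h3 : (q.divisors.filter (fun f => f ≠ 1)).filter (fun f => f ≤ F) ⊆ Icc 1 F := by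
    intro f hf
    rw [mem_filter, mem_filter, Nat.mem_divisors] at hf
    have hf0 : f ≠ 0 := by
      rintro rfl
      exact NeZero.ne q (Nat.eq_zero_of_zero_dvd hf.1.1.1)
    rw [mem_Icc]
    exact ⟨by omega, hf.2⟩
  have h4 := card_le_card h3
  rw [Nat.card_Icc, Nat.add_sub_cancel] at h4
  exact_mod_cast h4

/-- the large conductors, on average over the classes -/
theorem VU_le (X : ℝ) (hX : 1 ≤ X) (q F : ℕ) (hF : 1 ≤ F) [NeZero q] :
    ∑ a ∈ (range q).filter (fun a => a.Coprime q), ‖VU X q F a‖ ^ 2 ≤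
      (1 / (Nat.totient q : ℝ)) *
      (∑ f ∈ q.divisors.filter (fun f => f ≠ 1),
        if F < f then ∑ ψ ∈ Prim f, 2 * ‖psiC X f ψ‖ ^ 2 else 0) +
      2 * (q.primeFactors.card * Real.log X) ^ 2 := by
  classical
  have hφ : (0:ℝ) < Nat.totient q := by
    exact_mod_cast Nat.totient_pos.mpr (Nat.pos_of_ne_zero (NeZero.ne q))
  have hP := parseval q (largeC q F) (fun χ => psiC X q χ)
  have h0 : ∑ a ∈ (range q).filter (fun a => a.Coprime q), ‖VU X q F a‖ ^ 2 =
      (1 / (Nat.totient q : ℝ)) * ∑ χ ∈ largeC q F, ‖psiC X q χ‖ ^ 2 := by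
    have h1 : ∀ a ∈ (range q).filter (fun a => a.Coprime q), ‖VU X q F a‖ ^ 2 =
        (1 / (Nat.totient q : ℝ)) ^ 2 * ‖∑ χ ∈ largeC q F,
          χ ((a : ZMod q)⁻¹) * psiC X q χ‖ ^ 2 := by
      intro a _
      unfold VU
      rw [norm_mul, mul_pow, norm_div, norm_one, Complex.norm_natCast]
    rw [sum_congr rfl h1, ← mul_sum, hP]
    field_simp
  rw [h0]
  have hE0 : 0 ≤ (q.primeFactors.card : ℝ) * Real.log X :=
    mul_nonneg (Nat.cast_nonneg _) (Real.log_nonneg hX)
  have h := sum_max q (largeC q F) ((q.divisors.filter (fun f => f ≠ 1)).filter (fun f => F < f))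
    (by
      intro f hf
      rw [mem_filter, mem_filter, Nat.mem_divisors] at hf
      exact hf.1.1.1)
    (by
      intro χ hχ
      rw [mem_largeC] at hχ
      rw [mem_filter, mem_filter, Nat.mem_divisors]
      refine ⟨⟨⟨χ.conductor_dvd_level, NeZero.ne q⟩, ?_⟩, hχ.2⟩
      have := hχ.2
      omega)
    (fun χ => ‖psiC X q χ‖ ^ 2)
    (2 * (q.primeFactors.card * Real.log X) ^ 2) (by positivity)
    (fun f ψ => 2 * ‖psiC X f ψ‖ ^ 2) (fun f ψ => by positivity)
    (fun f h ψ => by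
      have h1 := psiC_changeLevel X hX q f (Nat.pos_of_ne_zero (NeZero.ne q)) h ψ
      have h2 := norm_nonneg (psiC X q (DirichletCharacter.changeLevel h ψ))
      have h3 := pow_le_pow_left₀ h2 h1 2
      refine h3.trans ?_
      nlinarith [sq_nonneg (‖psiC X f ψ‖ - q.primeFactors.card * Real.log X)])
  rw [sum_filter] at h
  exact h

end Pool.Agent.D0H48.MO
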