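import Mathlib
import Pool.Agent.D0H48.MO.Ch
import Pool.Agent.Helper112.Arith

/-!
The second moment over the large conductors (theorem of Barban, Davenport and Halberstam)
-/

set_option autoImplicit false

open Finset

namespace Pool.Agent.D0H48.MO

open H343E H343E.InterC
open Pool.Agent.H410R2 Pool.Agent.H398R2.BV Pool.Agent.Helper112 Pool.Agent.Helper112.BLB
open Pool.Agent.H262R3.Lk.SWQ (psiC)

theorem HH_log : ∃ C : ℝ, 0 < C ∧ ∀ D : ℕ, 1 ≤ D → HH D ≤ C * (1 + Real.log D) := by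
  obtain ⟨C, hC, h⟩ := Pool.Agent.Helper112.sum_ratio_sq
  refine ⟨C, hC, fun Y hY => le_trans (sum_le_sum fun r hr => ?_) (h Y hY)⟩
  rw [mem_Icc] at hr
  have hr0 : (0 : ℝ) < r := by exact_mod_cast (by omega : 0 < r)
  have ht : (0 : ℝ) < Nat.totient r := by exact_mod_cast Nat.totient_pos.2 (by omega)
  have hle : (Nat.totient r : ℝ) ≤ r := by exact_mod_cast Nat.totient_le r
  have h1 : 1 ≤ (r : ℝ) / Nat.totient r := by rw [one_le_div ht]; exact hle
  have h2 : (r : ℝ) / Nat.totient r ≤ ((r : ℝ) / Nat.totient r) ^ 2 := by nlinarith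
  calc 1 / (Nat.totient r : ℝ) = 1 / (r : ℝ) * ((r : ℝ) / Nat.totient r) := by field_simp
    _ ≤ 1 / (r : ℝ) * ((r : ℝ) / Nat.totient r) ^ 2 :=
      mul_le_mul_of_nonneg_left h2 (by positivity)

/-- sums over the moduli and their divisors -/
theorem inter2 (D : ℕ) (S : ℕ → ℝ) (hS : ∀ f, 0 ≤ S f) :
    ∑ q ∈ Icc 1 D, (1 / (Nat.totient q : ℝ)) * ∑ f ∈ q.divisors.filter (fun f => f ≠ 1), S f ≤
      ∑ f ∈ Icc 2 D, (1 / (Nat.totient f : ℝ)) * S f * HH (D / f) := by
  have h1 : ∑ q ∈ Icc 1 D, 1 / (Nat.totient q : ℝ) *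
      ∑ f ∈ q.divisors.filter (fun f => f ≠ 1), S f =
      ∑ f ∈ Icc 2 D, ∑ q ∈ (Icc 1 D).filter (fun q => f ∣ q), 1 / (Nat.totient q : ℝ) * S f := by
    simp_rw [mul_sum]
    refine sum_comm' fun q f => ?_
    simp only [mem_Icc, mem_filter, Nat.mem_divisors]
    constructor
    · rintro ⟨⟨h2, h3⟩, ⟨h4, h5⟩, h6⟩
      have h7 : f ≤ q := Nat.le_of_dvd (by omega) h4
      have h8 : 0 < f := Nat.pos_of_dvd_of_pos h4 (by omega)
      exact ⟨⟨⟨h2, h3⟩, h4⟩, ⟨by omega, by omega⟩⟩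
    · rintro ⟨⟨⟨h2, h3⟩, h4⟩, ⟨h5, h5'⟩⟩
      exact ⟨⟨h2, h3⟩, ⟨h4, by omega⟩, by omega⟩
  rw [h1]
  refine sum_le_sum fun f hf => ?_
  rw [mem_Icc] at hf
  rw [← sum_mul]
  have htf : (0 : ℝ) < Nat.totient f := by exact_mod_cast Nat.totient_pos.2 (by omega)
  have h2 : ∑ q ∈ (Icc 1 D).filter (fun q => f ∣ q), 1 / (Nat.totient q : ℝ) ≤
      1 / (Nat.totient f : ℝ) * HH (D / f) := by
    unfold HH
    rw [mul_sum]
    have h3 : ∑ q ∈ (Icc 1 D).filter (fun q => f ∣ q), 1 / (Nat.totient q : ℝ) ≤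
        ∑ q ∈ (Icc 1 D).filter (fun q => f ∣ q),
          1 / (Nat.totient f : ℝ) * (1 / (Nat.totient (q / f) : ℝ)) := by
      refine sum_le_sum fun q hD => ?_
      rw [mem_filter, mem_Icc] at hD
      obtain ⟨⟨h4, h5⟩, g, rfl⟩ := hD
      have hg : 0 < g := Nat.pos_of_ne_zero (by rintro rfl; simp at h4)
      rw [Nat.mul_div_cancel_left g (by omega : 0 < f)]
      have htg : (0 : ℝ) < Nat.totient g := by exact_mod_cast Nat.totient_pos.2 hg
      rw [one_div_mul_one_div]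
      apply one_div_le_one_div_of_le (by positivity)
      exact_mod_cast Nat.totient_super_multiplicative f g
    refine h3.trans ?_
    have hinj : Set.InjOn (fun q => q / f) ((Icc 1 D).filter (fun q => f ∣ q) : Finset ℕ) := by
      intro a ha b hb hab
      rw [mem_coe, mem_filter] at ha hb
      simp only at hab
      rw [← Nat.div_mul_cancel ha.2, ← Nat.div_mul_cancel hb.2, hab]
    rw [← sum_image (f := fun g => 1 / (Nat.totient f : ℝ) * (1 / (Nat.totient g : ℝ))) hinj]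
    apply sum_le_sum_of_subset_of_nonneg
    · intro g hg
      rw [mem_image] at hg
      obtain ⟨q, hq, rfl⟩ := hg
      rw [mem_filter, mem_Icc] at hq
      rw [mem_Icc]
      exact ⟨Nat.div_pos (Nat.le_of_dvd (by omega) hq.2) (by omega),
        Nat.div_le_div_right hq.1.2⟩
    · intro g _ _
      positivity
  calc (∑ q ∈ (Icc 1 D).filter (fun q => f ∣ q), 1 / (Nat.totient q : ℝ)) * S f ≤
      (1 / (Nat.totient f : ℝ) * HH (D / f)) * S f :=
        mul_le_mul_of_nonneg_right h2 (hS f)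
    _ = _ := by ring

/-- the term of the large sieve -/
noncomputable def sU (X : ℝ) (f : ℕ) : ℝ :=
  ((f : ℝ) / (Nat.totient f : ℝ)) * ∑ ψ ∈ Prim f, ‖psiC X f ψ‖ ^ 2

theorem sU_nonneg (X : ℝ) (f : ℕ) : 0 ≤ sU X f := by
  unfold sU
  positivity

theorem WU_le (X : ℝ) (hX : 1 ≤ X) :
    ∑ n ∈ Icc 1 ⌊X⌋₊, ‖((ArithmeticFunction.vonMangoldt n : ℝ) : ℂ)‖ ^ 2 ≤ 6 * X * Real.log X := by
  have hX0 : 0 < X := by linarith
  have hL : 0 ≤ Real.log X := Real.log_nonneg hX
  have h1 : ∀ n ∈ Icc 1 ⌊X⌋₊, ‖((ArithmeticFunction.vonMangoldt n : ℝ) : ℂ)‖ ^ 2 ≤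
      ArithmeticFunction.vonMangoldt n * Real.log X := by
    intro n hn
    rw [mem_Icc] at hn
    have hn1 : (1 : ℝ) ≤ n := by exact_mod_cast hn.1
    have hn2 : (n : ℝ) ≤ X := (Nat.le_floor_iff (by linarith)).1 hn.2
    have h2 : ArithmeticFunction.vonMangoldt n ≤ Real.log n := ArithmeticFunction.vonMangoldt_le_log
    have h3 : Real.log n ≤ Real.log X := Real.log_le_log (by linarith) hn2
    have h4 : 0 ≤ ArithmeticFunction.vonMangoldt n := ArithmeticFunction.vonMangoldt_nonneg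
    rw [Complex.norm_real, Real.norm_eq_abs, abs_of_nonneg h4, sq]
    exact mul_le_mul_of_nonneg_left (h2.trans h3) h4
  refine (sum_le_sum h1).trans ?_
  rw [← sum_mul]
  apply mul_le_mul_of_nonneg_right _ hL
  have h5 := Chebyshev.psi_le_const_mul_self hX0.le
  have h6 : ∑ n ∈ Icc 1 ⌊X⌋₊, ArithmeticFunction.vonMangoldt n = Chebyshev.psi X := by
    unfold Chebyshev.psi
    rfl
  rw [h6]
  refine h5.trans ?_
  have h7 : Real.log 4 ≤ 2 := by
    have h8 : Real.log 4 = 2 * Real.log 2 := by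
      rw [show (4 : ℝ) = 2 ^ 2 by norm_num, Real.log_pow]
      norm_num
    have := Real.log_two_lt_d9
    linarith
  nlinarith

theorem TU_le (X : ℝ) (hX : 1 ≤ X) (k : ℕ) :
    ∑ f ∈ Icc 1 k, sU X f ≤ 6 * (X + (k : ℝ) ^ 2) * (6 * X * Real.log X) := by
  have hL : 0 ≤ Real.log X := Real.log_nonneg hX
  have h := Pool.Agent.Helper112.mult_large_sieve ⌊X⌋₊ k
    (fun n => ((ArithmeticFunction.vonMangoldt n : ℝ) : ℂ))
  refine le_trans (le_of_eq ?_) (le_trans h ?_)
  · unfold sU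
    refine sum_congr rfl fun f _ => ?_
    congr 1
  · have h1 : ((⌊X⌋₊ : ℕ) : ℝ) ≤ X := Nat.floor_le (by linarith)
    have h2 := WU_le X hX
    gcongr

theorem sqrt_two_pow (i : ℕ) : √((2 : ℝ) ^ i) = √2 ^ i := by
  rw [show (2 : ℝ) ^ i = (√2 ^ i) ^ 2 by
    rw [← pow_mul, mul_comm, pow_mul, Real.sq_sqrt (by norm_num)]]
  exact Real.sqrt_sq (by positivity)

theorem one_add_log_le {t : ℝ} (ht : 1 ≤ t) : 1 + Real.log t ≤ 2 * √t := by
  have h0 : 0 < √t := Real.sqrt_pos.2 (by linarith)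
  have h1 := Real.log_le_sub_one_of_pos h0
  have h2 : Real.log t = 2 * Real.log √t := by
    rw [Real.log_sqrt (by linarith)]
    ring
  have h3 : 1 ≤ √t := Real.one_le_sqrt.2 ht
  rw [h2]
  linarith

/-- the dyadic sum over the conductors -/
theorem dyadic {X : ℝ} (hX : 1 ≤ X) {C : ℝ} (hC : 0 < C)
    (hHH : ∀ D : ℕ, 1 ≤ D → HH D ≤ C * (1 + Real.log D)) {F D : ℕ} (hF : 1 ≤ F) (hD : 1 ≤ D) :
    ∑ f ∈ Ioc F D, sU X f / f * HH (D / f) ≤
      12 * C * (6 * X * Real.log X) *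
        ((1 + Real.log (2 * D)) * (Nat.log 2 (2 * D) + 1 : ℕ) * X / F + 24 * D) := by
  have hD0 : (0 : ℝ) < D := by exact_mod_cast hD
  have hF0 : (0 : ℝ) < F := by exact_mod_cast hF
  have hL : 0 ≤ Real.log X := Real.log_nonneg hX
  obtain ⟨M, hM⟩ : ∃ M : ℕ, M = Nat.log 2 (2 * D) + 1 := ⟨_, rfl⟩
  obtain ⟨cc, hcc⟩ : ∃ cc : ℕ → ℝ, cc = fun i => 2 / 2 ^ i * (C * (1 + Real.log (2 * D / 2 ^ i))) :=
    ⟨_, rfl⟩
  obtain ⟨I, hI⟩ : ∃ I : Finset ℕ, I = (range M).filter (fun i => F < 2 ^ i) := ⟨_, rfl⟩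
  have hmem : ∀ i ∈ I, (2 : ℝ) ^ i ≤ 2 * D ∧ (F : ℝ) ≤ 2 ^ i := by
    intro i hi
    rw [hI, mem_filter, mem_range, hM] at hi
    constructor
    · have h1 : 2 ^ i ≤ 2 * D := by
        refine le_trans (Nat.pow_le_pow_right (by norm_num) (by omega : i ≤ Nat.log 2 (2 * D))) ?_
        exact Nat.pow_log_le_self 2 (by omega)
      exact_mod_cast h1
    · exact_mod_cast hi.2.le
  have hcc0 : ∀ i ∈ I, 0 ≤ cc i := by
    intro i hi
    obtain ⟨h1, -⟩ := hmem i hi
    have h2 : (1 : ℝ) ≤ 2 * D / 2 ^ i := by rwa [le_div_iff₀ (by positivity), one_mul]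
    have := Real.log_nonneg h2
    rw [hcc]
    positivity
  -- compare with the dyadic weights
  have hmaj : ∀ f ∈ Ioc F D, sU X f / f * HH (D / f) ≤
      ∑ i ∈ I.filter (fun i => f ≤ 2 ^ i), cc i * sU X f := by
    intro f hf
    rw [mem_Ioc] at hf
    have hf0 : (0 : ℝ) < f := by exact_mod_cast (by omega : 0 < f)
    obtain ⟨i, hi⟩ : ∃ i : ℕ, i = Nat.clog 2 f := ⟨_, rfl⟩
    have h1 : f ≤ 2 ^ i := by rw [hi]; exact Nat.le_pow_clog (by norm_num) f
    have h2 : 2 ^ i < 2 * f := by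
      have h3 : 1 < f := by omega
      have h4 := Nat.pow_pred_clog_lt_self (b := 2) (by norm_num) h3
      rw [← hi] at h4
      have h5 : 0 < i := by
        rw [hi]
        exact Nat.clog_pos (by norm_num) h3
      have h6 : 2 ^ i = 2 * 2 ^ i.pred := by
        rw [← pow_succ']
        congr 1
        exact (Nat.succ_pred_eq_of_pos h5).symm
      omega
    have hiI : i ∈ I := by
      rw [hI, mem_filter, mem_range, hM]
      refine ⟨?_, by omega⟩
      have : i ≤ Nat.log 2 (2 * D) := by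
        apply Nat.le_log_of_pow_le (by norm_num)
        omega
      omega
    have h7 : sU X f / f * HH (D / f) ≤ cc i * sU X f := by
      have hdiv : 1 ≤ D / f := Nat.div_pos hf.2 (by omega)
      have h8 := hHH (D / f) hdiv
      have h9 : ((D / f : ℕ) : ℝ) ≤ 2 * D / 2 ^ i := by
        refine Nat.cast_div_le.trans ?_
        rw [div_le_div_iff₀ hf0 (by positivity)]
        have : (2 : ℝ) ^ i ≤ 2 * f := by exact_mod_cast h2.le
        nlinarith
      have h10 : Real.log ((D / f : ℕ) : ℝ) ≤ Real.log (2 * D / 2 ^ i) :=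
        Real.log_le_log (by exact_mod_cast hdiv) h9
      have h11 : (1 : ℝ) / f ≤ 2 / 2 ^ i := by
        rw [div_le_div_iff₀ hf0 (by positivity)]
        have : (2 : ℝ) ^ i ≤ 2 * f := by exact_mod_cast h2.le
        linarith
      have h12 : HH (D / f) ≤ C * (1 + Real.log (2 * D / 2 ^ i)) := by
        refine h8.trans ?_
        apply mul_le_mul_of_nonneg_left _ hC.le
        linarith
      have hHH0 : 0 ≤ HH (D / f) := by
        unfold HH
        exact sum_nonneg fun _ _ => by positivity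
      rw [hcc]
      calc sU X f / f * HH (D / f) = (1 / (f : ℝ) * HH (D / f)) * sU X f := by ring
        _ ≤ _ := by
          apply mul_le_mul_of_nonneg_right _ (sU_nonneg X f)
          exact mul_le_mul h11 h12 hHH0 (by positivity)
    refine h7.trans ?_
    exact single_le_sum (f := fun i => cc i * sU X f)
      (fun i hi => mul_nonneg (hcc0 i (mem_filter.1 hi).1) (sU_nonneg X f))
      (mem_filter.2 ⟨hiI, h1⟩)
  refine (sum_le_sum hmaj).trans ?_
  have hswap : ∑ f ∈ Ioc F D, ∑ i ∈ I.filter (fun i => f ≤ 2 ^ i), cc i * sU X f =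
      ∑ i ∈ I, ∑ f ∈ (Ioc F D).filter (fun f => f ≤ 2 ^ i), cc i * sU X f := by
    refine sum_comm' fun f i => ?_
    simp only [mem_filter]
    tauto
  rw [hswap]
  have hterm : ∀ i ∈ I, ∑ f ∈ (Ioc F D).filter (fun f => f ≤ 2 ^ i), cc i * sU X f ≤
      12 * C * (6 * X * Real.log X) * ((1 + Real.log (2 * D)) * X / F +
        2 * √(2 * D) * √2 ^ i) := by
    intro i hi
    obtain ⟨h1, h2⟩ := hmem i hi
    have h2i : (0 : ℝ) < 2 ^ i := by positivity
    rw [← mul_sum]
    have h3 : ∑ f ∈ (Ioc F D).filter (fun f => f ≤ 2 ^ i), sU X f ≤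
        6 * (X + ((2 ^ i : ℕ) : ℝ) ^ 2) * (6 * X * Real.log X) := by
      refine le_trans ?_ (TU_le X hX (2 ^ i))
      apply sum_le_sum_of_subset_of_nonneg
      · intro f hf
        rw [mem_filter, mem_Ioc] at hf
        rw [mem_Icc]
        omega
      · intro f _ _
        exact sU_nonneg X f
    push_cast at h3
    have h4 : (1 : ℝ) ≤ 2 * D / 2 ^ i := by rwa [le_div_iff₀ h2i, one_mul]
    have h5 := one_add_log_le h4
    have h6 : Real.log (2 * D / 2 ^ i) ≤ Real.log (2 * D) := by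
      apply Real.log_le_log (by positivity)
      exact div_le_self (by positivity) (one_le_pow₀ (by norm_num))
    have h7 : 0 ≤ 1 + Real.log (2 * D / 2 ^ i) := by
      have := Real.log_nonneg h4
      linarith
    have hW0 : 0 ≤ 6 * X * Real.log X := by positivity
    have h8 : (1 + Real.log (2 * D / 2 ^ i)) * (X / 2 ^ i + 2 ^ i) ≤
        (1 + Real.log (2 * D)) * X / F + 2 * √(2 * D) * √2 ^ i := by
      have e1 : (1 + Real.log (2 * D / 2 ^ i)) * (X / 2 ^ i) ≤ (1 + Real.log (2 * D)) * X / F := by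
        rw [show (1 + Real.log (2 * D)) * X / F = (1 + Real.log (2 * D)) * (X / F) from
          mul_div_assoc _ _ _]
        apply mul_le_mul (by linarith) _ (by positivity) (by linarith)
        exact div_le_div_of_nonneg_left (by linarith) hF0 h2
      have e2 : (1 + Real.log (2 * D / 2 ^ i)) * 2 ^ i ≤ 2 * √(2 * D) * √2 ^ i := by
        have e3 : √(2 * D / 2 ^ i) = √(2 * D) / √2 ^ i := by
          rw [Real.sqrt_div (by positivity), sqrt_two_pow]
        have e4 : (2 : ℝ) ^ i = √2 ^ i * √2 ^ i := by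
          rw [← mul_pow, Real.mul_self_sqrt (by norm_num)]
        have e5 : 0 < √2 ^ i := by positivity
        calc (1 + Real.log (2 * D / 2 ^ i)) * 2 ^ i ≤ 2 * √(2 * D / 2 ^ i) * 2 ^ i :=
              mul_le_mul_of_nonneg_right h5 h2i.le
          _ = 2 * √(2 * D) * √2 ^ i := by
              rw [e3, e4]
              field_simp
      have e6 : (1 + Real.log (2 * D / 2 ^ i)) * (X / 2 ^ i + 2 ^ i) =
        (1 + Real.log (2 * D / 2 ^ i)) * (X / 2 ^ i) + (1 + Real.log (2 * D / 2 ^ i)) * 2 ^ i := by ring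
      rw [e6]
      exact add_le_add e1 e2
    calc cc i * ∑ f ∈ (Ioc F D).filter (fun f => f ≤ 2 ^ i), sU X f ≤
        cc i * (6 * (X + (2 ^ i) ^ 2) * (6 * X * Real.log X)) :=
          mul_le_mul_of_nonneg_left h3 (hcc0 i hi)
      _ = 12 * C * (6 * X * Real.log X) * ((1 + Real.log (2 * D / 2 ^ i)) * (X / 2 ^ i + 2 ^ i)) := by
          rw [hcc]
          field_simp
          ring
      _ ≤ _ := mul_le_mul_of_nonneg_left h8 (by positivity)
  refine (sum_le_sum hterm).trans ?_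
  rw [← mul_sum, sum_add_distrib, sum_const, nsmul_eq_mul, ← mul_sum]
  apply mul_le_mul_of_nonneg_left _ (by positivity)
  have hD2 : 0 ≤ Real.log (2 * D) := by
    apply Real.log_nonneg
    have : (1 : ℝ) ≤ D := by exact_mod_cast hD
    linarith
  apply add_le_add
  · have h1 : (I.card : ℝ) ≤ (M : ℝ) := by
      have : I.card ≤ M := by
        rw [hI]
        exact (card_filter_le _ _).trans (by rw [card_range])
      exact_mod_cast this
    rw [← hM]
    have h2 : (1 + Real.log (2 * D)) * (M : ℝ) * X / F = M * ((1 + Real.log (2 * D)) * X / F) := by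
      ring
    rw [h2]
    exact mul_le_mul_of_nonneg_right h1 (by positivity)
  · have hs2 : 1 < √2 := by
      rw [Real.lt_sqrt (by norm_num)]
      norm_num
    have hs3 : √2 < 3 / 2 := by
      rw [Real.sqrt_lt' (by norm_num)]
      norm_num
    have hs4 : 7 / 5 < √2 := by
      rw [Real.lt_sqrt (by norm_num)]
      norm_num
    have h1 : ∑ i ∈ I, √2 ^ i ≤ ∑ i ∈ range M, √2 ^ i := by
      apply sum_le_sum_of_subset_of_nonneg
      · rw [hI]; exact filter_subset _ _
      · intro i _ _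
        positivity
    have h2 : ∑ i ∈ range M, √2 ^ i ≤ 3 * √2 ^ M := by
      rw [geom_sum_eq hs2.ne', div_le_iff₀ (by linarith)]
      have : 0 < √2 ^ M := by positivity
      nlinarith
    have h3 : √2 ^ M ≤ √2 * √(2 * D) := by
      rw [hM, pow_succ', ← sqrt_two_pow]
      apply mul_le_mul_of_nonneg_left _ (by positivity)
      apply Real.sqrt_le_sqrt
      have : 2 ^ Nat.log 2 (2 * D) ≤ 2 * D := Nat.pow_log_le_self 2 (by omega)
      exact_mod_cast this
    have h4 : √(2 * D : ℝ) * √(2 * D) = 2 * D := Real.mul_self_sqrt (by positivity)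
    have h5 : 0 ≤ √(2 * D : ℝ) := Real.sqrt_nonneg _
    calc 2 * √(2 * D) * ∑ i ∈ I, √2 ^ i ≤ 2 * √(2 * D) * (3 * (√2 * √(2 * D))) := by
          apply mul_le_mul_of_nonneg_left _ (by positivity)
          linarith
      _ = 6 * √2 * (√(2 * D) * √(2 * D)) := by ring
      _ = 12 * √2 * D := by rw [h4]; ring
      _ ≤ 24 * D := by nlinarith

/-- the second moment over the large conductors -/
theorem bdh : ∃ C : ℝ, 0 < C ∧ ∀ X : ℝ, 3 ≤ X → ∀ F D : ℕ, 1 ≤ F → 1 ≤ D → (D : ℝ) ≤ X →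
    ∑ q ∈ Icc 1 D, (if h : q = 0 then 0 else haveI : NeZero q := ⟨h⟩;
      ∑ a ∈ (range q).filter (fun a => a.Coprime q), ‖VU X q F a‖ ^ 2) ≤
      C * (X ^ 2 * Real.log X ^ 3 / F + D * X * Real.log X) := by
  obtain ⟨C, hC, hHH⟩ := HH_log
  obtain ⟨x₂, hx₂⟩ := Pool.Agent.W762.EC.SSA.growth 3
  obtain ⟨K, hK⟩ : ∃ K : ℝ, K = 32 * (1 + |x₂| ) ^ 3 + 32 := ⟨_, rfl⟩
  have hKpos : 0 < K := by rw [hK]; positivity
  refine ⟨2 * (12 * C * 6 * 24) + K, by positivity, fun X hX3 F D hF hD hDX => ?_⟩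
  have hX : 1 ≤ X := by linarith
  have hX0 : 0 < X := by linarith
  have hD0 : (0 : ℝ) < D := by exact_mod_cast hD
  have hD1 : (1 : ℝ) ≤ D := by exact_mod_cast hD
  have hF0 : (0 : ℝ) < F := by exact_mod_cast hF
  have hL : 1 ≤ Real.log X := by
    rw [Real.le_log_iff_exp_le hX0]
    have := Real.exp_one_lt_d9
    linarith
  have hL0 : 0 < Real.log X := by linarith
  -- the sum over the moduli
  have h1 : ∀ q ∈ Icc 1 D, (if h : q = 0 then 0 else haveI : NeZero q := ⟨h⟩;
      ∑ a ∈ (range q).filter (fun a => a.Coprime q), ‖VU X q F a‖ ^ 2) ≤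
      (1 / (Nat.totient q : ℝ)) *
      (∑ f ∈ q.divisors.filter (fun f => f ≠ 1),
        if F < f then ∑ ψ ∈ Prim f, 2 * ‖psiC X f ψ‖ ^ 2 else 0) +
      2 * (2 * Real.log X ^ 2) ^ 2 := by
    intro q hq
    rw [mem_Icc] at hq
    have hq0 : q ≠ 0 := by omega
    rw [dif_neg hq0]
    have : NeZero q := ⟨hq0⟩
    refine (VU_le X hX q F hF).trans ?_
    apply add_le_add_right
    have h2 := omega_le_log q hq.1
    have hq1 : (1 : ℝ) ≤ q := by exact_mod_cast hq.1
    have hqD : (q : ℝ) ≤ D := by exact_mod_cast hq.2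
    have h3 : Real.log q ≤ Real.log X := Real.log_le_log (by linarith) (by linarith)
    have h4 : (q.primeFactors.card : ℝ) * Real.log X ≤ 2 * Real.log X ^ 2 := by
      rw [sq, ← mul_assoc]
      exact mul_le_mul_of_nonneg_right (by linarith) hL0.le
    have h5 : 0 ≤ (q.primeFactors.card : ℝ) * Real.log X := by positivity
    gcongr
  refine (sum_le_sum h1).trans ?_
  rw [sum_add_distrib, sum_const, nsmul_eq_mul, Nat.card_Icc, Nat.add_sub_cancel]
  have hnn : ∀ f : ℕ, 0 ≤ ∑ ψ ∈ Prim f, 2 * ‖psiC X f ψ‖ ^ 2 := fun f =>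
    sum_nonneg fun _ _ => by positivity
  have h2 := inter2 D (fun f => if F < f then ∑ ψ ∈ Prim f, 2 * ‖psiC X f ψ‖ ^ 2 else 0)
    (fun f => by
      split_ifs
      · exact hnn f
      · exact le_rfl)
  have h3 : ∑ f ∈ Icc 2 D, (1 / (Nat.totient f : ℝ)) *
      (if F < f then ∑ ψ ∈ Prim f, 2 * ‖psiC X f ψ‖ ^ 2 else 0) * HH (D / f) ≤
      2 * ∑ f ∈ Ioc F D, sU X f / f * HH (D / f) := by
    rw [mul_sum]
    have h4 : ∀ f ∈ Icc 2 D, (1 / (Nat.totient f : ℝ)) *
        (if F < f then ∑ ψ ∈ Prim f, 2 * ‖psiC X f ψ‖ ^ 2 else 0) * HH (D / f) =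
        if F < f then 2 * (sU X f / f * HH (D / f)) else 0 := by
      intro f hf
      rw [mem_Icc] at hf
      have hf0 : (0 : ℝ) < f := by exact_mod_cast (by omega : 0 < f)
      split_ifs
      · unfold sU
        rw [← mul_sum]
        field_simp
      · ring
    rw [sum_congr rfl h4, ← sum_filter]
    apply sum_le_sum_of_subset_of_nonneg
    · intro f hf
      rw [mem_filter, mem_Icc] at hf
      rw [mem_Ioc]
      omega
    · intro f _ _
      have hHH0 : 0 ≤ HH (D / f) := by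
        unfold HH
        exact sum_nonneg fun _ _ => by positivity
      have := sU_nonneg X f
      positivity
  have h5 := dyadic hX hC hHH hF hD
  -- the logarithms
  have hlog2D : Real.log (2 * D) ≤ 2 * Real.log X := by
    have : Real.log (2 * D) ≤ Real.log (X ^ 2) := by
      apply Real.log_le_log (by positivity)
      nlinarith
    rwa [Real.log_pow, Nat.cast_ofNat] at this
  have hlog2D0 : 0 ≤ Real.log (2 * D) := Real.log_nonneg (by linarith)
  have hM : ((Nat.log 2 (2 * D) + 1 : ℕ) : ℝ) ≤ 5 * Real.log X := by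
    have e1 : ((Nat.log 2 (2 * D) : ℕ) : ℝ) * Real.log 2 ≤ Real.log (2 * D) := by
      rw [← Real.log_pow]
      apply Real.log_le_log (by positivity)
      have : 2 ^ Nat.log 2 (2 * D) ≤ 2 * D := Nat.pow_log_le_self 2 (by omega)
      exact_mod_cast this
    have e2 := Real.log_two_gt_d9
    have e3 : (0 : ℝ) ≤ ((Nat.log 2 (2 * D) : ℕ) : ℝ) := Nat.cast_nonneg _
    push_cast
    nlinarith
  have h6 : (1 + Real.log (2 * D)) * ((Nat.log 2 (2 * D) + 1 : ℕ) : ℝ) * X / F ≤
      15 * Real.log X ^ 2 * X / F := by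
    apply div_le_div_of_nonneg_right _ hF0.le
    apply mul_le_mul_of_nonneg_right _ hX0.le
    calc (1 + Real.log (2 * D)) * ((Nat.log 2 (2 * D) + 1 : ℕ) : ℝ) ≤
        (3 * Real.log X) * (5 * Real.log X) := by
          apply mul_le_mul (by linarith) hM (by positivity) (by positivity)
      _ = 15 * Real.log X ^ 2 := by ring
  have h7 : (D : ℝ) * (2 * (2 * Real.log X ^ 2) ^ 2) ≤ K * (D * X * Real.log X) := by
    have e1 : Real.log X ^ 3 ≤ (K / 8) * X := by
      rcases le_or_gt x₂ X with h | h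
      · have e2 := hx₂ X h
        have e3 : √X ≤ X := by
          rw [Real.sqrt_le_left hX0.le]
          nlinarith
        have e4 : 1 ≤ K / 8 := by
          rw [hK]
          have : 0 ≤ 32 * (1 + |x₂|) ^ 3 := by positivity
          linarith
        nlinarith
      · have e2 : Real.log X ≤ 1 + |x₂| := by
          have e3 := Real.log_le_sub_one_of_pos hX0
          have e4 := le_abs_self x₂
          linarith
        have e3 : Real.log X ^ 3 ≤ (1 + |x₂|) ^ 3 := by gcongr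
        have e4 : (1 + |x₂|) ^ 3 ≤ K / 8 := by
          rw [hK]
          have : 0 ≤ (1 + |x₂|) ^ 3 := by positivity
          linarith
        have e5 : K / 8 * 1 ≤ K / 8 * X := mul_le_mul_of_nonneg_left (by linarith) (by positivity)
        linarith
    calc (D : ℝ) * (2 * (2 * Real.log X ^ 2) ^ 2) = 8 * D * Real.log X * Real.log X ^ 3 := by ring
      _ ≤ 8 * D * Real.log X * ((K / 8) * X) := mul_le_mul_of_nonneg_left e1 (by positivity)
      _ = K * (D * X * Real.log X) := by ring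
  have hA : 0 ≤ 12 * C * (6 * X * Real.log X) := by positivity
  have h8 : 2 * (12 * C * (6 * X * Real.log X) *
      ((1 + Real.log (2 * D)) * ((Nat.log 2 (2 * D) + 1 : ℕ) : ℝ) * X / F + 24 * D)) ≤
      2 * (12 * C * 6 * 24) * (X ^ 2 * Real.log X ^ 3 / F + D * X * Real.log X) := by
    have e1 : 12 * C * (6 * X * Real.log X) *
      ((1 + Real.log (2 * D)) * ((Nat.log 2 (2 * D) + 1 : ℕ) : ℝ) * X / F + 24 * D) ≤
      12 * C * (6 * X * Real.log X) * (15 * Real.log X ^ 2 * X / F + 24 * D) :=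
      mul_le_mul_of_nonneg_left (by linarith) hA
    have e2 : 0 ≤ X ^ 2 * Real.log X ^ 3 / F := by positivity
    have e3 : 12 * C * (6 * X * Real.log X) * (15 * Real.log X ^ 2 * X / F + 24 * D) =
      12 * C * 6 * (15 * (X ^ 2 * Real.log X ^ 3 / F) + 24 * (D * X * Real.log X)) := by
      field_simp
    have e4 : 12 * C * 6 * (15 * (X ^ 2 * Real.log X ^ 3 / F) + 24 * (D * X * Real.log X)) ≤
      12 * C * 6 * (24 * (X ^ 2 * Real.log X ^ 3 / F) + 24 * (D * X * Real.log X)) := by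
      apply mul_le_mul_of_nonneg_left _ (by positivity)
      linarith
    linarith
  have h9 : 0 ≤ K * (X ^ 2 * Real.log X ^ 3 / F) := by
    rw [hK]
    positivity
  calc _ ≤ 2 * (12 * C * (6 * X * Real.log X) *
      ((1 + Real.log (2 * D)) * ((Nat.log 2 (2 * D) + 1 : ℕ) : ℝ) * X / F + 24 * D)) +
        K * (D * X * Real.log X) := by linarith
    _ ≤ _ := by linarith

end Pool.Agent.D0H48.MO
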