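import Mathlib
import Pool.Agent.D0H48.MO.Ls
import Pool.Agent.Helper923.PNT

/-!
The asymptotic formula for one residue class, up to the large conductors
-/

set_option autoImplicit false

open Finset Filter Topology

namespace Pool.Agent.D0H48.MO

open H343E H343E.InterC
open Pool.Agent.H410R2 Pool.Agent.H398R2.BV Pool.Agent.Helper112 Pool.Agent.Helper112.BLB
open Pool.Agent.H262R3.Lk.SWQ (psiC)

/-- the bound for the small conductors -/
noncomputable def Fx (G : ℕ) (X : ℝ) : ℕ := ⌊Real.log X ^ G⌋₊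

theorem VU_zero (X : ℝ) (q F a : ℕ) [NeZero q] (h : q ≤ F) : VU X q F a = 0 := by
  classical
  have h1 : largeC q F = ∅ := by
    rw [eq_empty_iff_forall_notMem]
    intro χ hχ
    rw [mem_largeC] at hχ
    have h2 : χ.conductor ≤ q := Nat.le_of_dvd (Nat.pos_of_ne_zero (NeZero.ne q)) χ.conductor_dvd_level
    omega
  unfold VU
  rw [h1, sum_empty, mul_zero]

theorem psi1_eq' (X : ℝ) : psi1 X = Chebyshev.psi X := by
  unfold psi1 Chebyshev.psi
  rfl

theorem point (G : ℕ) (ε : ℝ) (hε : 0 < ε) : ∃ X₀ : ℝ, ∀ X : ℝ, X₀ ≤ X → ∀ (q : ℕ) [NeZero q] (a : ℕ),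
    (q : ℝ) ≤ X → a.Coprime q →
    |psiAP X q a - X / (Nat.totient q : ℝ)| ≤ ε * (X / (Nat.totient q : ℝ)) + ‖VU X q (Fx G X) a‖ := by
  obtain ⟨x₁, hx₁⟩ := Pool.Agent.W762.EC.SSA.psiC_bound (2 * G + 1) G
  obtain ⟨x₂, hx₂⟩ := Pool.Agent.W762.EC.SSA.growth (2 * G + 2)
  have hpnt : ∀ᶠ X : ℝ in atTop, |Chebyshev.psi X / X - 1| < ε / 4 := by
    have := Pool.Agent.Helper923.PNT.psi_div_tendsto
    rw [Metric.tendsto_atTop] at this
    obtain ⟨N, hN⟩ := this (ε / 4) (by positivity)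
    filter_upwards [eventually_ge_atTop N] with X hX
    have := hN X hX
    rwa [Real.dist_eq] at this
  have hlog : ∀ᶠ X : ℝ in atTop, 1 + 40 / ε ≤ Real.log X := Real.tendsto_log_atTop.eventually_ge_atTop _
  have hsq : ∀ᶠ X : ℝ in atTop, 16 / ε ≤ √X := Real.tendsto_sqrt_atTop.eventually_ge_atTop _
  obtain ⟨X₀, hX₀⟩ := eventually_atTop.1 (hpnt.and (hlog.and (hsq.and
    ((eventually_ge_atTop x₁).and ((eventually_ge_atTop x₂).and (eventually_ge_atTop (3 : ℝ)))))))
  refine ⟨X₀, fun X hX q _ a hqX ha => ?_⟩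
  obtain ⟨h1, h2, h3, h4, h5, h6⟩ := hX₀ X hX
  have hX1 : 1 ≤ X := by linarith
  have hX0 : 0 < X := by linarith
  have hq1 : 1 ≤ q := NeZero.one_le
  have hq1' : (1 : ℝ) ≤ q := by exact_mod_cast hq1
  have hφ : (0 : ℝ) < Nat.totient q := by exact_mod_cast Nat.totient_pos.2 hq1
  obtain ⟨L, hL⟩ : ∃ L : ℝ, L = Real.log X := ⟨_, rfl⟩
  rw [← hL] at h2
  have hε40 : 0 < 40 / ε := by positivity
  have hL1 : 1 ≤ L := by linarith
  have hL0 : 0 < L := by linarith
  obtain ⟨F, hF⟩ : ∃ F : ℕ, F = Fx G X := ⟨_, rfl⟩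
  have hFle : (F : ℝ) ≤ L ^ G := by
    rw [hF, hL]
    exact Nat.floor_le (by rw [← hL]; positivity)
  have hω : (q.primeFactors.card : ℝ) ≤ 2 * L := by
    have e1 := omega_le_log q hq1
    have e2 : Real.log q ≤ Real.log X := Real.log_le_log (by linarith) hqX
    rw [hL]
    linarith
  have hω0 : (0 : ℝ) ≤ q.primeFactors.card := Nat.cast_nonneg _
  -- the small conductors
  have hSU := SU_le X hX1 q F (10 * X / L ^ (2 * G + 1)) (by positivity) (fun f hf1 hfF ψ hψ => by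
    rw [hL]
    apply hx₁ X h4 f hf1
    · rw [← hL]
      have : (f : ℝ) ≤ F := by exact_mod_cast hfF
      linarith
    · classical
      unfold Prim at hψ
      rw [mem_filter] at hψ
      exact hψ.2)
  have hpt := pointU X hX1 q F a ha
  rw [← hL] at hSU hpt
  have hS2 : (F : ℝ) ^ 2 * (10 * X / L ^ (2 * G + 1) + q.primeFactors.card * L) ≤
      10 * X / L + 2 * L ^ (2 * G + 2) := by
    have e1 : (F : ℝ) ^ 2 ≤ L ^ (2 * G) := by
      calc (F : ℝ) ^ 2 ≤ (L ^ G) ^ 2 := pow_le_pow_left₀ (Nat.cast_nonneg _) hFle 2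
        _ = L ^ (2 * G) := by rw [← pow_mul, mul_comm]
    calc (F : ℝ) ^ 2 * (10 * X / L ^ (2 * G + 1) + q.primeFactors.card * L) ≤
        L ^ (2 * G) * (10 * X / L ^ (2 * G + 1) + 2 * L * L) := by
          apply mul_le_mul e1 _ (by positivity) (by positivity)
          have := mul_le_mul_of_nonneg_right hω hL0.le
          linarith
      _ = 10 * X / L + 2 * L ^ (2 * G + 2) := by
          rw [pow_succ L (2 * G)]
          field_simp
          ring
  have hLx : L ^ (2 * G + 2) ≤ √X := by rw [hL]; exact hx₂ X h5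
  have hss : √X * √X = X := Real.mul_self_sqrt hX0.le
  have hs0 : 0 < √X := Real.sqrt_pos.2 hX0
  have hsX : √X ≤ ε / 16 * X := by
    rw [div_le_iff₀ hε] at h3
    nlinarith
  have h10 : 10 * X / L ≤ ε / 4 * X := by
    rw [div_le_iff₀ hL0]
    have : 40 / ε ≤ L := by linarith
    rw [div_le_iff₀ hε] at this
    nlinarith
  have hωL : (q.primeFactors.card : ℝ) * L ≤ 2 * L ^ (2 * G + 2) := by
    calc (q.primeFactors.card : ℝ) * L ≤ 2 * L * L := mul_le_mul_of_nonneg_right hω hL0.le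
      _ = 2 * L ^ 2 := by ring
      _ ≤ 2 * L ^ (2 * G + 2) := by
          apply mul_le_mul_of_nonneg_left _ (by norm_num)
          exact pow_le_pow_right₀ hL1 (by omega)
  have hpsi : |psi1 X - X| ≤ ε / 4 * X := by
    rw [psi1_eq']
    have e1 : Chebyshev.psi X - X = (Chebyshev.psi X / X - 1) * X := by field_simp
    rw [e1, abs_mul, abs_of_pos hX0]
    exact mul_le_mul_of_nonneg_right h1.le hX0.le
  have hpsi2 : |psi1 X / (Nat.totient q : ℝ) - X / (Nat.totient q : ℝ)| ≤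
      ε / 4 * X / (Nat.totient q : ℝ) := by
    rw [← sub_div, abs_div, abs_of_pos hφ]
    exact div_le_div_of_nonneg_right hpsi hφ.le
  have hS3 : SU X q F ≤ (ε / 4 * X + 2 * (ε / 16 * X)) / (Nat.totient q : ℝ) := by
    refine hSU.trans ?_
    rw [one_div, inv_mul_eq_div]
    apply div_le_div_of_nonneg_right _ hφ.le
    linarith
  have hω2 : (q.primeFactors.card : ℝ) * L / (Nat.totient q : ℝ) ≤
      (2 * (ε / 16 * X)) / (Nat.totient q : ℝ) := by
    apply div_le_div_of_nonneg_right _ hφ.le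
    linarith
  have htri : |psiAP X q a - X / (Nat.totient q : ℝ)| ≤
      |psiAP X q a - psi1 X / (Nat.totient q : ℝ)| +
      |psi1 X / (Nat.totient q : ℝ) - X / (Nat.totient q : ℝ)| := abs_sub_le _ _ _
  rw [← hF]
  have hfin : (ε / 4 * X + 2 * (ε / 16 * X)) / (Nat.totient q : ℝ) +
      (2 * (ε / 16 * X)) / (Nat.totient q : ℝ) + ε / 4 * X / (Nat.totient q : ℝ) ≤
      ε * (X / (Nat.totient q : ℝ)) := by
    rw [← add_div, ← add_div, ← mul_div_assoc]
    apply div_le_div_of_nonneg_right _ hφ.le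
    nlinarith
  linarith

end Pool.Agent.D0H48.MO
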