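import Mathlib
import Pool.Agent.D0H48.MO.Pt

/-!
The Borel-Cantelli lemma for the bad residue classes
-/

set_option autoImplicit false

open Finset Filter Topology MeasureTheory
open scoped ENNReal

namespace Pool.Agent.D0H48.MO

open H343E H343E.InterC

/-- the absolute value of the contribution of the large conductors -/
noncomputable def vv (X : ℝ) (F q a : ℕ) : ℝ :=
  if h : q = 0 then 0 else haveI : NeZero q := ⟨h⟩; ‖VU X q F a‖

theorem vv_nonneg (X : ℝ) (F q a : ℕ) : 0 ≤ vv X F q a := by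
  unfold vv
  split_ifs
  · exact le_rfl
  · exact norm_nonneg _

theorem vv_eq (X : ℝ) (F q a : ℕ) [hq : NeZero q] : vv X F q a = ‖VU X q F a‖ := by
  unfold vv
  rw [dif_neg hq.out]

/-- the bad residue classes -/
noncomputable def bad (G : ℕ) (ε X : ℝ) (q : ℕ) : Finset ℕ :=
  ((range q).filter (fun a => a.Coprime q)).filter
    (fun a => ε * (X / (Nat.totient q : ℝ)) < vv X (Fx G X) q a)

/-- the range of the moduli -/
noncomputable def Dx (κ X : ℝ) : ℕ := ⌊X / Real.log X ^ κ⌋₊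

/-- the neighbourhoods of the bad fractions -/
noncomputable def EE (ρ κ : ℝ) (G : ℕ) (ε X : ℝ) : Set ℝ :=
  ⋃ q ∈ Icc 1 (Dx κ X), ⋃ a ∈ bad G ε X q,
    Metric.closedBall ((a : ℝ) / q) (Real.log X ^ ρ / (q : ℝ) ^ 2)

theorem vol_EE {ρ τ ε : ℝ} {G : ℕ} (hρ : 0 ≤ ρ) (hτ : 0 < τ) (hε : 0 < ε) (hG : ρ + 5 ≤ G) :
    ∃ C : ℝ, 0 < C ∧ ∀ X : ℝ, 3 ≤ X → volume (EE ρ (ρ + 2 + τ) G ε X) ≤
      ENNReal.ofReal (C * (Real.log X ^ (-2 : ℝ) + Real.log X ^ (-1 - τ))) := by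
  obtain ⟨C, hC, hbdh⟩ := bdh
  refine ⟨4 * C / ε ^ 2, by positivity, fun X hX3 => ?_⟩
  have hX0 : 0 < X := by linarith
  obtain ⟨L, hL⟩ : ∃ L : ℝ, L = Real.log X := ⟨_, rfl⟩
  have hL1 : 1 ≤ L := by
    rw [hL, Real.le_log_iff_exp_le hX0]
    have := Real.exp_one_lt_d9
    linarith
  have hL0 : 0 < L := by linarith
  obtain ⟨κ, hκ⟩ : ∃ κ : ℝ, κ = ρ + 2 + τ := ⟨_, rfl⟩
  obtain ⟨D, hD⟩ : ∃ D : ℕ, D = Dx κ X := ⟨_, rfl⟩
  obtain ⟨F, hF⟩ : ∃ F : ℕ, F = Fx G X := ⟨_, rfl⟩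
  rw [← hκ]
  have hLρ : 0 < L ^ ρ := Real.rpow_pos_of_pos hL0 _
  rcases Nat.eq_zero_or_pos D with hD0 | hD0
  · have h1 : EE ρ κ G ε X = ∅ := by
      unfold EE
      rw [← hD, hD0]
      simp
    rw [h1, measure_empty]
    exact bot_le
  -- the volume and the second moment
  obtain ⟨K, hK⟩ : ∃ K : ℝ, K = 2 * L ^ ρ / (ε ^ 2 * X ^ 2) := ⟨_, rfl⟩
  have hK0 : 0 < K := by rw [hK]; positivity
  have h1 : volume (EE ρ κ G ε X) ≤ ENNReal.ofReal (K * ∑ q ∈ Icc 1 D,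
      ∑ a ∈ (range q).filter (fun a => a.Coprime q), vv X F q a ^ 2) := by
    unfold EE
    rw [← hD, ← hL]
    refine (measure_biUnion_finset_le _ _).trans ?_
    rw [mul_sum, ENNReal.ofReal_sum_of_nonneg fun q _ => by
      have : 0 ≤ ∑ a ∈ (range q).filter (fun a => a.Coprime q), vv X F q a ^ 2 :=
        sum_nonneg fun _ _ => by positivity
      positivity]
    refine sum_le_sum fun q hq => ?_
    rw [mem_Icc] at hq
    have hq0 : (0 : ℝ) < q := by exact_mod_cast (by omega : 0 < q)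
    have hφ : (0 : ℝ) < Nat.totient q := by exact_mod_cast Nat.totient_pos.2 (by omega)
    have hφq : (Nat.totient q : ℝ) ≤ q := by exact_mod_cast Nat.totient_le q
    refine (measure_biUnion_finset_le _ _).trans ?_
    rw [mul_sum, ENNReal.ofReal_sum_of_nonneg fun a _ => by positivity]
    refine le_trans ?_ (sum_le_sum_of_subset (filter_subset (fun a =>
      ε * (X / (Nat.totient q : ℝ)) < vv X (Fx G X) q a) _))
    refine sum_le_sum fun a ha => ?_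
    rw [bad, mem_filter, ← hF] at ha
    rw [Real.volume_closedBall]
    apply ENNReal.ofReal_le_ofReal
    have h2 := ha.2
    have h3 : 0 < ε * (X / (Nat.totient q : ℝ)) := by positivity
    have h4 : (ε * (X / (Nat.totient q : ℝ))) ^ 2 ≤ vv X F q a ^ 2 :=
      pow_le_pow_left₀ h3.le h2.le 2
    have h5 : (ε * (X / (q : ℝ))) ^ 2 ≤ (ε * (X / (Nat.totient q : ℝ))) ^ 2 := by
      apply pow_le_pow_left₀ (by positivity)
      apply mul_le_mul_of_nonneg_left _ hε.le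
      exact div_le_div_of_nonneg_left hX0.le hφ hφq
    calc 2 * (L ^ ρ / (q : ℝ) ^ 2) = K * (ε * (X / (q : ℝ))) ^ 2 := by
          rw [hK]
          field_simp
      _ ≤ K * vv X F q a ^ 2 := mul_le_mul_of_nonneg_left (h5.trans h4) hK0.le
  refine h1.trans (ENNReal.ofReal_le_ofReal ?_)
  -- the numbers
  have hLG1 : (1 : ℝ) ≤ L ^ G := one_le_pow₀ hL1
  have hF1 : 1 ≤ F := by
    rw [hF, Fx, ← hL]
    exact Nat.le_floor (by exact_mod_cast hLG1)
  have hF0 : (0 : ℝ) < F := by exact_mod_cast hF1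
  have hF2 : L ^ G ≤ 2 * F := by
    have e1 : L ^ G < (F : ℝ) + 1 := by
      rw [hF, Fx, ← hL]
      exact Nat.lt_floor_add_one _
    have e2 : (1 : ℝ) ≤ F := by exact_mod_cast hF1
    linarith
  have hκ0 : 0 < κ := by rw [hκ]; linarith
  have hLκ : 1 ≤ L ^ κ := Real.one_le_rpow hL1 hκ0.le
  have hDle : (D : ℝ) ≤ X / L ^ κ := by
    rw [hD, Dx, ← hL]
    exact Nat.floor_le (by positivity)
  have hDX : (D : ℝ) ≤ X := hDle.trans (div_le_self hX0.le hLκ)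
  have h2 := hbdh X hX3 F D hF1 hD0 hDX
  have h3 : ∑ q ∈ Icc 1 D, ∑ a ∈ (range q).filter (fun a => a.Coprime q), vv X F q a ^ 2 ≤
      C * (X ^ 2 * L ^ 3 / F + D * X * L) := by
    rw [hL]
    refine le_trans (le_of_eq (sum_congr rfl fun q hq => ?_)) h2
    rw [mem_Icc] at hq
    have hq0 : q ≠ 0 := by omega
    rw [dif_neg hq0]
    refine sum_congr rfl fun a _ => ?_
    unfold vv
    rw [dif_neg hq0]
  refine (mul_le_mul_of_nonneg_left h3 hK0.le).trans ?_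
  have h4 : L ^ 3 / F ≤ 2 * (L ^ (-2 : ℝ) * L ^ (-ρ)) := by
    rw [div_le_iff₀ hF0]
    have e1 : L ^ (3 : ℕ) = L ^ (-2 : ℝ) * L ^ (-ρ) * L ^ (5 + ρ) := by
      rw [← Real.rpow_add hL0, ← Real.rpow_add hL0, ← Real.rpow_natCast]
      congr 1
      push_cast
      ring
    have e2 : L ^ (5 + ρ) ≤ L ^ G := by
      rw [← Real.rpow_natCast L G]
      exact Real.rpow_le_rpow_of_exponent_le hL1 (by linarith)
    have e3 : 0 < L ^ (-2 : ℝ) * L ^ (-ρ) :=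
      mul_pos (Real.rpow_pos_of_pos hL0 _) (Real.rpow_pos_of_pos hL0 _)
    rw [e1]
    calc L ^ (-2 : ℝ) * L ^ (-ρ) * L ^ (5 + ρ) ≤ L ^ (-2 : ℝ) * L ^ (-ρ) * (2 * F) :=
          mul_le_mul_of_nonneg_left (e2.trans hF2) e3.le
      _ = _ := by ring
  have h5 : (D : ℝ) * L / X ≤ L ^ (-1 - τ) * L ^ (-ρ) := by
    rw [div_le_iff₀ hX0]
    have e1 : X / L ^ κ * L = L ^ (-1 - τ) * L ^ (-ρ) * X := by
      rw [div_eq_mul_inv, ← Real.rpow_neg hL0.le, mul_assoc]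
      have e2 : L ^ (-κ) * L = L ^ (-1 - τ) * L ^ (-ρ) := by
        nth_rewrite 2 [← Real.rpow_one L]
        rw [← Real.rpow_add hL0, ← Real.rpow_add hL0]
        congr 1
        rw [hκ]
        ring
      rw [e2]
      ring
    rw [← e1]
    exact mul_le_mul_of_nonneg_right hDle hL0.le
  have h6 : L ^ ρ * L ^ (-ρ) = 1 := by
    rw [← Real.rpow_add hL0, add_neg_cancel, Real.rpow_zero]
  have h7 : K * (C * (X ^ 2 * L ^ 3 / F + D * X * L)) =
      2 * C / ε ^ 2 * (L ^ ρ * (L ^ 3 / F + D * L / X)) := by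
    rw [hK]
    field_simp
  rw [h7, ← hL]
  have h8 : L ^ ρ * (L ^ 3 / F + D * L / X) ≤ 2 * (L ^ (-2 : ℝ) + L ^ (-1 - τ)) := by
    have e3 : 0 < L ^ (-1 - τ) := Real.rpow_pos_of_pos hL0 _
    calc L ^ ρ * (L ^ 3 / F + D * L / X) ≤
        L ^ ρ * (2 * (L ^ (-2 : ℝ) * L ^ (-ρ)) + L ^ (-1 - τ) * L ^ (-ρ)) :=
          mul_le_mul_of_nonneg_left (add_le_add h4 h5) hLρ.le
      _ = (L ^ ρ * L ^ (-ρ)) * (2 * L ^ (-2 : ℝ) + L ^ (-1 - τ)) := by ring
      _ = 2 * L ^ (-2 : ℝ) + L ^ (-1 - τ) := by rw [h6, one_mul]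
      _ ≤ _ := by linarith
  calc 2 * C / ε ^ 2 * (L ^ ρ * (L ^ 3 / F + D * L / X)) ≤
      2 * C / ε ^ 2 * (2 * (L ^ (-2 : ℝ) + L ^ (-1 - τ))) :=
        mul_le_mul_of_nonneg_left h8 (by positivity)
    _ = _ := by ring

/-- almost all numbers and all their translates are in finitely many of the sets -/
theorem ae_EE {ρ τ ε η : ℝ} {G : ℕ} (hρ : 0 ≤ ρ) (hτ : 0 < τ) (hε : 0 < ε) (hG : ρ + 5 ≤ G)
    (hη : 0 < η) : ∀ᵐ α : ℝ, ∀ m : ℤ, ∀ᶠ j : ℕ in atTop,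
      α - m ∉ EE ρ (ρ + 2 + τ) G ε (Real.exp (η * j)) := by
  obtain ⟨C, hC, hvol⟩ := vol_EE (G := G) hρ hτ hε hG
  obtain ⟨J, hJ⟩ := exists_nat_ge (2 / η)
  have hJη : 2 ≤ η * J := by
    rw [div_le_iff₀ hη] at hJ
    linarith
  have hX3 : ∀ j : ℕ, 3 ≤ Real.exp (η * ((j + J : ℕ) : ℝ)) := by
    intro j
    have e1 : 2 ≤ η * ((j + J : ℕ) : ℝ) := by
      push_cast
      have : 0 ≤ η * (j : ℝ) := by positivity
      linarith
    have e2 := Real.add_one_le_exp (η * ((j + J : ℕ) : ℝ))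
    linarith
  -- summability
  have hsum : Summable fun j : ℕ => C * ((η * ((j + J : ℕ) : ℝ)) ^ (-2 : ℝ) +
      (η * ((j + J : ℕ) : ℝ)) ^ (-1 - τ)) := by
    apply Summable.mul_left
    have h1 : ∀ s : ℝ, s < -1 → Summable fun j : ℕ => (η * ((j + J : ℕ) : ℝ)) ^ s := by
      intro s hs
      have h2 : Summable fun j : ℕ => (η ^ s) * (j : ℝ) ^ s := (Real.summable_nat_rpow.2 hs).mul_left _
      have h3 := (summable_nat_add_iff J).2 h2
      refine h3.congr fun j => ?_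
      rw [Real.mul_rpow hη.le (Nat.cast_nonneg _)]
    exact (h1 _ (by norm_num)).add (h1 _ (by linarith))
  have hfin : ∑' j : ℕ, volume (EE ρ (ρ + 2 + τ) G ε (Real.exp (η * ((j + J : ℕ) : ℝ)))) ≠ ∞ := by
    have h1 : ∀ j : ℕ, volume (EE ρ (ρ + 2 + τ) G ε (Real.exp (η * ((j + J : ℕ) : ℝ)))) ≤
        ENNReal.ofReal (C * ((η * ((j + J : ℕ) : ℝ)) ^ (-2 : ℝ) +
          (η * ((j + J : ℕ) : ℝ)) ^ (-1 - τ))) := by
      intro j
      have := hvol _ (hX3 j)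
      rwa [Real.log_exp] at this
    refine ne_top_of_le_ne_top ?_ (ENNReal.tsum_le_tsum h1)
    rw [← ENNReal.ofReal_tsum_of_nonneg (fun j => by positivity) hsum]
    exact ENNReal.ofReal_ne_top
  have h1 := ae_eventually_notMem hfin
  have h2 : ∀ᵐ α : ℝ, ∀ᶠ j : ℕ in atTop, α ∉ EE ρ (ρ + 2 + τ) G ε (Real.exp (η * j)) := by
    filter_upwards [h1] with α hα
    rw [eventually_atTop] at hα ⊢
    obtain ⟨N, hN⟩ := hα
    refine ⟨N + J, fun j hj => ?_⟩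
    obtain ⟨i, rfl⟩ : ∃ i, j = i + J := ⟨j - J, by omega⟩
    exact hN i (by omega)
  rw [ae_all_iff]
  intro m
  exact (measurePreserving_sub_right volume (m : ℝ)).quasiMeasurePreserving.ae h2

end Pool.Agent.D0H48.MO
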