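import Mathlib
import Pool.Agent.D0H48.MO.Bc

/-!
The asymptotic formula along the rational approximations of almost every number
-/

set_option autoImplicit false

open Finset Filter Topology MeasureTheory
open scoped ENNReal

namespace Pool.Agent.D0H48.MO

open H343E H343E.InterC

/-- `ψ(x, q, a)` for an integer `a` -/
noncomputable def psiZ (x : ℝ) (q : ℕ) (a : ℤ) : ℝ :=
  ∑ n ∈ (Icc 1 ⌊x⌋₊).filter (fun n : ℕ => (n : ℤ) ≡ a [ZMOD q]), ArithmeticFunction.vonMangoldt n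

theorem psiZ_eq (x : ℝ) (q : ℕ) (a : ℤ) (hq : 1 ≤ q) : psiZ x q a = psiAP x q (a % q).toNat := by
  have h1 : ((a % q).toNat : ℤ) = a % q := Int.toNat_of_nonneg (Int.emod_nonneg _ (by omega))
  unfold psiZ psiAP
  congr 1
  apply filter_congr
  intro n _
  rw [← Int.natCast_modEq_iff, h1]
  constructor
  · intro h
    exact h.trans (Int.mod_modEq a q).symm
  · intro h
    exact h.trans (Int.mod_modEq a q)

theorem psiAP_mono {x y : ℝ} (h : x ≤ y) (q a : ℕ) : psiAP x q a ≤ psiAP y q a := by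
  unfold psiAP
  refine sum_le_sum_of_subset_of_nonneg ?_ (fun _ _ _ => ArithmeticFunction.vonMangoldt_nonneg)
  exact filter_subset_filter _ (Icc_subset_Icc le_rfl (Nat.floor_le_floor h))

/-- the growth conditions -/
theorem growth_cond {c δ η : ℝ} (hc : 0 ≤ c) (hδ : 0 < δ) (hη : 0 < η) :
    ∃ x₀ : ℝ, ∀ x : ℝ, x₀ ≤ x → 3 ≤ x ∧ ∀ X : ℝ, x * Real.exp (-η) ≤ X → X ≤ x * Real.exp η →
      1 ≤ Real.log X ∧
      Real.log x ^ c ≤ Real.log X ^ (c + δ / 4) ∧
      ∀ y : ℝ, 0 ≤ y → y * Real.log x ^ (2 + c + δ) ≤ x →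
        y * Real.log X ^ (c + δ / 4 + 2 + δ / 4) ≤ X := by
  have h1 : ∀ᶠ x : ℝ in atTop, 2 + 2 * η ≤ Real.log x := Real.tendsto_log_atTop.eventually_ge_atTop _
  have h2 : ∀ᶠ x : ℝ in atTop, (2 : ℝ) ^ c * 2 ^ (δ / 4) ≤ Real.log x ^ (δ / 4) :=
    ((tendsto_rpow_atTop (by positivity)).comp Real.tendsto_log_atTop).eventually_ge_atTop _
  have h3 : ∀ᶠ x : ℝ in atTop, (2 : ℝ) ^ (c + δ / 4 + 2 + δ / 4) * Real.exp η ≤
      Real.log x ^ (δ / 2) :=
    ((tendsto_rpow_atTop (by positivity)).comp Real.tendsto_log_atTop).eventually_ge_atTop _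
  obtain ⟨x₀, hx₀⟩ := eventually_atTop.1 (h1.and (h2.and (h3.and (eventually_ge_atTop (3 : ℝ)))))
  refine ⟨x₀, fun x hx => ?_⟩
  obtain ⟨e1, e2, e3, e4⟩ := hx₀ x hx
  refine ⟨e4, fun X hX1 hX2 => ?_⟩
  have hx0 : 0 < x := by linarith
  obtain ⟨l, hl⟩ : ∃ l : ℝ, l = Real.log x := ⟨_, rfl⟩
  rw [← hl] at e1 e2 e3 ⊢
  have hX0 : 0 < X := lt_of_lt_of_le (by positivity) hX1
  obtain ⟨L, hL⟩ : ∃ L : ℝ, L = Real.log X := ⟨_, rfl⟩
  rw [← hL]
  have hlow : l - η ≤ L := by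
    have := Real.log_le_log (by positivity) hX1
    rw [Real.log_mul hx0.ne' (Real.exp_pos _).ne', Real.log_exp] at this
    rw [hl, hL]
    linarith
  have hup : L ≤ l + η := by
    have := Real.log_le_log hX0 hX2
    rw [Real.log_mul hx0.ne' (Real.exp_pos _).ne', Real.log_exp] at this
    rw [hl, hL]
    linarith
  have hl0 : 0 < l := by linarith
  have hL1 : 1 ≤ L := by linarith
  have hL0 : 0 < L := by linarith
  refine ⟨hL1, ?_, fun y hy hyx => ?_⟩
  · have f1 : l ≤ 2 * L := by linarith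
    have f2 : l ^ c ≤ 2 ^ c * L ^ c := by
      rw [← Real.mul_rpow (by norm_num) hL0.le]
      exact Real.rpow_le_rpow hl0.le f1 hc
    have f3 : l ^ (δ / 4) ≤ 2 ^ (δ / 4) * L ^ (δ / 4) := by
      rw [← Real.mul_rpow (by norm_num) hL0.le]
      exact Real.rpow_le_rpow hl0.le f1 (by positivity)
    have f4 : (0 : ℝ) < 2 ^ (δ / 4) := Real.rpow_pos_of_pos (by norm_num) _
    have f5 : (2 : ℝ) ^ c ≤ L ^ (δ / 4) := by
      have : 2 ^ c * 2 ^ (δ / 4) ≤ L ^ (δ / 4) * 2 ^ (δ / 4) := by linarith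
      exact le_of_mul_le_mul_right this f4
    have f6 : 0 < L ^ c := Real.rpow_pos_of_pos hL0 _
    rw [Real.rpow_add hL0]
    calc l ^ c ≤ 2 ^ c * L ^ c := f2
      _ ≤ L ^ (δ / 4) * L ^ c := mul_le_mul_of_nonneg_right f5 f6.le
      _ = _ := by ring
  · obtain ⟨κ, hκ⟩ : ∃ κ : ℝ, κ = c + δ / 4 + 2 + δ / 4 := ⟨_, rfl⟩
    rw [← hκ] at e3 ⊢
    have hκ0 : 0 ≤ κ := by rw [hκ]; positivity
    have f1 : L ≤ 2 * l := by linarith
    have f2 : L ^ κ ≤ 2 ^ κ * l ^ κ := by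
      rw [← Real.mul_rpow (by norm_num) hl0.le]
      exact Real.rpow_le_rpow hL0.le f1 hκ0
    have f3 : l ^ (2 + c + δ) = l ^ κ * l ^ (δ / 2) := by
      rw [← Real.rpow_add hl0]
      congr 1
      rw [hκ]
      ring
    rw [f3] at hyx
    have f4 : 0 < l ^ κ := Real.rpow_pos_of_pos hl0 _
    have f5 : y * (2 ^ κ * l ^ κ) * Real.exp η ≤ x := by
      calc y * (2 ^ κ * l ^ κ) * Real.exp η = y * l ^ κ * (2 ^ κ * Real.exp η) := by ring
        _ ≤ y * l ^ κ * l ^ (δ / 2) := mul_le_mul_of_nonneg_left e3 (by positivity)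
        _ = y * (l ^ κ * l ^ (δ / 2)) := by ring
        _ ≤ x := hyx
    have f6 : y * (2 ^ κ * l ^ κ) ≤ x * Real.exp (-η) := by
      rw [Real.exp_neg, ← div_eq_mul_inv, le_div_iff₀ (Real.exp_pos η)]
      exact f5
    calc y * L ^ κ ≤ y * (2 ^ κ * l ^ κ) := mul_le_mul_of_nonneg_left f2 hy
      _ ≤ x * Real.exp (-η) := f6
      _ ≤ X := hX1

theorem main_ae {c δ ε : ℝ} (hc : 0 ≤ c) (hδ : 0 < δ) (hε : 0 < ε) (hε1 : ε ≤ 1) :
    ∀ᵐ α : ℝ, ∃ x₀ : ℝ, ∀ x : ℝ, x₀ ≤ x → ∀ q : ℕ, 1 ≤ q → (q : ℝ) * Real.log x ^ (2 + c + δ) ≤ x →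
      ∀ a : ℤ, IsCoprime a (q : ℤ) → |α - a / q| ≤ Real.log x ^ c / (q : ℝ) ^ 2 →
        |psiZ x q a - x / (Nat.totient q : ℝ)| ≤ ε * (x / (Nat.totient q : ℝ)) := by
  obtain ⟨η, hη⟩ : ∃ η : ℝ, η = Real.log (1 + ε / 4) := ⟨_, rfl⟩
  have hη0 : 0 < η := by rw [hη]; exact Real.log_pos (by linarith)
  have hexp : Real.exp η = 1 + ε / 4 := by rw [hη]; exact Real.exp_log (by linarith)
  obtain ⟨ρ, hρ⟩ : ∃ ρ : ℝ, ρ = c + δ / 4 := ⟨_, rfl⟩
  have hρ0 : 0 ≤ ρ := by rw [hρ]; positivity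
  obtain ⟨G, hG⟩ := exists_nat_ge (ρ + 5)
  obtain ⟨X₀, hX₀⟩ := point G (ε / 8) (by positivity)
  obtain ⟨x₁, hx₁⟩ := growth_cond hc hδ hη0
  filter_upwards [ae_EE (G := G) hρ0 (show 0 < δ / 4 by positivity) (show 0 < ε / 8 by positivity)
    hG hη0] with α hα
  have hfin : ∀ᶠ j : ℕ in atTop, ∀ m ∈ Finset.Icc (⌊α⌋ - 3) (⌊α⌋ + 3),
      α - (m : ℤ) ∉ EE ρ (ρ + 2 + δ / 4) G (ε / 8) (Real.exp (η * j)) := by
    rw [Filter.eventually_all_finset]
    intro m _
    exact hα m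
  obtain ⟨J, hJ⟩ := eventually_atTop.1 hfin
  refine ⟨max x₁ (max (Real.exp (η * (J + 1))) (X₀ * Real.exp η)), fun x hx q hq hqx a ha hα1 => ?_⟩
  have hxx1 : x₁ ≤ x := (le_max_left _ _).trans hx
  have hxJ : Real.exp (η * (J + 1)) ≤ x := ((le_max_left _ _).trans (le_max_right _ _)).trans hx
  have hxX : X₀ * Real.exp η ≤ x := ((le_max_right _ _).trans (le_max_right _ _)).trans hx
  obtain ⟨hx3, hcond⟩ := hx₁ x hxx1
  have hx0 : 0 < x := by linarith
  have hqne : NeZero q := ⟨by omega⟩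
  have hq0 : (0 : ℝ) < q := by exact_mod_cast (by omega : 0 < q)
  have hq1 : (1 : ℝ) ≤ q := by exact_mod_cast hq
  have hφ : (0 : ℝ) < Nat.totient q := by exact_mod_cast Nat.totient_pos.2 (by omega)
  -- the residue
  obtain ⟨r, hr⟩ : ∃ r : ℕ, r = (a % q).toNat := ⟨_, rfl⟩
  have hrz : (r : ℤ) = a % q := by
    rw [hr]
    exact Int.toNat_of_nonneg (Int.emod_nonneg _ (by omega))
  have hrq : r < q := by
    have := Int.emod_lt_of_pos a (show (0 : ℤ) < q by omega)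
    omega
  have hrcop : r.Coprime q := by
    have h1 : IsCoprime (r : ℤ) (q : ℤ) := by
      rw [hrz]
      have h2 : a % (q : ℤ) = a + (-(a / q)) * q := by
        have := Int.emod_add_mul_ediv a q
        linarith
      rw [h2]
      exact (IsCoprime.add_mul_right_left_iff).2 ha
    exact Nat.isCoprime_iff_coprime.1 h1
  obtain ⟨m, hm⟩ : ∃ m : ℤ, m = a / q := ⟨_, rfl⟩
  have ham : (a : ℝ) / q = m + (r : ℝ) / q := by
    have h1 : a = (r : ℤ) + q * m := by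
      rw [hrz, hm]
      exact (Int.emod_add_mul_ediv a q).symm
    have h2 : (a : ℝ) = r + q * m := by exact_mod_cast congrArg (Int.cast : ℤ → ℝ) h1
    rw [h2]
    field_simp
    ring
  -- the net
  obtain ⟨j, hj⟩ : ∃ j : ℕ, j = ⌊Real.log x / η⌋₊ := ⟨_, rfl⟩
  have hlx : 0 ≤ Real.log x := Real.log_nonneg (by linarith)
  have hj1 : (j : ℝ) ≤ Real.log x / η := by rw [hj]; exact Nat.floor_le (by positivity)
  have hj2 : Real.log x / η < j + 1 := by rw [hj]; exact Nat.lt_floor_add_one _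
  rw [le_div_iff₀ hη0] at hj1
  rw [div_lt_iff₀ hη0] at hj2
  have hjJ : J ≤ j := by
    have h1 := Real.log_le_log (Real.exp_pos _) hxJ
    rw [Real.log_exp] at h1
    have h2 : (J : ℝ) + 1 < j + 1 := by
      have : η * ((J : ℝ) + 1) < η * (j + 1) := by linarith
      exact lt_of_mul_lt_mul_left this hη0.le
    have h3 : (J : ℝ) < j := by linarith
    exact_mod_cast h3.le
  have hxexp : x = Real.exp (Real.log x) := (Real.exp_log hx0).symm
  -- the formula at the points of the net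
  have key : ∀ i : ℕ, J ≤ i → x * Real.exp (-η) ≤ Real.exp (η * i) → Real.exp (η * i) ≤ x * Real.exp η →
      |psiAP (Real.exp (η * i)) q r - Real.exp (η * i) / (Nat.totient q : ℝ)| ≤
        ε / 4 * (Real.exp (η * i) / (Nat.totient q : ℝ)) := by
    intro i hiJ hi1 hi2
    obtain ⟨X, hX⟩ : ∃ X : ℝ, X = Real.exp (η * i) := ⟨_, rfl⟩
    rw [← hX] at hi1 hi2 ⊢
    have hX0 : 0 < X := by rw [hX]; exact Real.exp_pos _
    obtain ⟨g1, g2, g3⟩ := hcond X hi1 hi2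
    have hXX : X₀ ≤ X := by
      refine le_trans ?_ hi1
      rw [Real.exp_neg, ← div_eq_mul_inv, le_div_iff₀ (Real.exp_pos η)]
      exact hxX
    have g4 := g3 q hq0.le hqx
    rw [← hρ] at g2 g4
    obtain ⟨L, hL⟩ : ∃ L : ℝ, L = Real.log X := ⟨_, rfl⟩
    rw [← hL] at g1 g2 g4
    have hL0 : 0 < L := by linarith
    have hLκ : 1 ≤ L ^ (ρ + 2 + δ / 4) := Real.one_le_rpow g1 (by positivity)
    have hqX : (q : ℝ) ≤ X := by
      refine le_trans ?_ g4
      nlinarith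
    have h1 := hX₀ X hXX q r hqX hrcop
    by_contra hcon
    rw [not_le] at hcon
    have h2 : ε / 8 * (X / (Nat.totient q : ℝ)) < ‖VU X q (Fx G X) r‖ := by linarith
    -- `q` is large
    have h3 : Fx G X < q := by
      by_contra h4
      rw [not_lt] at h4
      rw [VU_zero X q (Fx G X) r h4, norm_zero] at h2
      have : 0 < ε / 8 * (X / (Nat.totient q : ℝ)) := by positivity
      linarith
    have h4 : L ^ G ≤ q := by
      have e1 : L ^ G < (Fx G X : ℝ) + 1 := by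
        rw [Fx, ← hL]
        exact Nat.lt_floor_add_one _
      have e2 : ((Fx G X : ℕ) : ℝ) + 1 ≤ q := by exact_mod_cast h3
      linarith
    have h5 : L ^ ρ ≤ (q : ℝ) ^ 2 := by
      have e1 : L ^ ρ ≤ L ^ G := by
        rw [← Real.rpow_natCast L G]
        exact Real.rpow_le_rpow_of_exponent_le g1 (by linarith)
      nlinarith
    have h6 : L ^ ρ / (q : ℝ) ^ 2 ≤ 1 := by
      rw [div_le_one (by positivity)]
      exact h5
    have h7 : |α - a / q| ≤ L ^ ρ / (q : ℝ) ^ 2 :=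
      hα1.trans (div_le_div_of_nonneg_right g2 (by positivity))
    have h8 : α - m ∈ EE ρ (ρ + 2 + δ / 4) G (ε / 8) X := by
      unfold EE
      simp only [Set.mem_iUnion]
      refine ⟨q, ?_, r, ?_, ?_⟩
      · rw [mem_Icc]
        refine ⟨hq, ?_⟩
        rw [Dx, ← hL]
        apply Nat.le_floor
        rw [le_div_iff₀ (by linarith)]
        exact g4
      · rw [bad, mem_filter, mem_filter, mem_range, vv_eq]
        exact ⟨⟨hrq, hrcop⟩, h2⟩
      · rw [Metric.mem_closedBall, Real.dist_eq, ← hL]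
        have : α - m - (r : ℝ) / q = α - a / q := by rw [ham]; ring
        rw [this]
        exact h7
    have h9 : m ∈ Finset.Icc (⌊α⌋ - 3) (⌊α⌋ + 3) := by
      have e1 := (abs_le.1 (h7.trans h6))
      have e2 : (0 : ℝ) ≤ (r : ℝ) / q := by positivity
      have e3 : (r : ℝ) / q ≤ 1 := by
        rw [div_le_one hq0]
        exact_mod_cast hrq.le
      rw [ham] at e1
      have e4 : (⌊α⌋ : ℝ) ≤ α := Int.floor_le α
      have e5 : α < ⌊α⌋ + 1 := Int.lt_floor_add_one α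
      rw [Finset.mem_Icc]
      constructor
      · have : ((⌊α⌋ - 3 : ℤ) : ℝ) ≤ m := by
          push_cast
          linarith [e1.2]
        exact_mod_cast this
      · have : (m : ℝ) ≤ ((⌊α⌋ + 3 : ℤ) : ℝ) := by
          push_cast
          linarith [e1.1]
        exact_mod_cast this
    rw [hX] at h8
    exact hJ i hiJ m h9 h8
  -- the two neighbours of `x`
  have hXj : Real.exp (η * j) ≤ x := by
    rw [hxexp]
    apply Real.exp_le_exp.2
    linarith
  have hXj1 : x ≤ Real.exp (η * ((j + 1 : ℕ) : ℝ)) := by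
    conv_lhs => rw [hxexp]
    apply Real.exp_le_exp.2
    push_cast
    linarith
  have hsucc : Real.exp (η * ((j + 1 : ℕ) : ℝ)) = Real.exp (η * j) * Real.exp η := by
    rw [← Real.exp_add]
    congr 1
    push_cast
    ring
  have hXjlow : x * Real.exp (-η) ≤ Real.exp (η * j) := by
    rw [Real.exp_neg, ← div_eq_mul_inv, div_le_iff₀ (Real.exp_pos η), ← hsucc]
    exact hXj1
  have hE1 : 1 ≤ Real.exp η := Real.one_le_exp hη0.le
  have hXj1up : Real.exp (η * ((j + 1 : ℕ) : ℝ)) ≤ x * Real.exp η := by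
    rw [hsucc]
    exact mul_le_mul_of_nonneg_right hXj (Real.exp_pos _).le
  have hXjup : Real.exp (η * j) ≤ x * Real.exp η := by nlinarith
  have hexpneg : Real.exp (-η) ≤ 1 := by
    rw [Real.exp_le_one_iff]
    linarith
  have hXj1low : x * Real.exp (-η) ≤ Real.exp (η * ((j + 1 : ℕ) : ℝ)) := by nlinarith
  have k1 := abs_le.1 (key j hjJ hXjlow hXjup)
  have k2 := abs_le.1 (key (j + 1) (by omega) hXj1low hXj1up)
  have m1 := psiAP_mono hXj q r
  have m2 := psiAP_mono hXj1 q r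
  rw [psiZ_eq x q a hq, ← hr]
  obtain ⟨A, hA⟩ : ∃ A : ℝ, A = Real.exp (η * j) / (Nat.totient q : ℝ) := ⟨_, rfl⟩
  obtain ⟨B, hB⟩ : ∃ B : ℝ, B = x / (Nat.totient q : ℝ) := ⟨_, rfl⟩
  obtain ⟨Z, hZ⟩ : ∃ Z : ℝ, Z = Real.exp (η * ((j + 1 : ℕ) : ℝ)) / (Nat.totient q : ℝ) := ⟨_, rfl⟩
  rw [← hA] at k1
  rw [← hZ] at k2
  rw [← hB]
  have hB0 : 0 < B := by rw [hB]; positivity
  have hZB : Z ≤ B * (1 + ε / 4) := by
    rw [hZ, hB, ← hexp, div_mul_eq_mul_div]
    exact div_le_div_of_nonneg_right hXj1up hφ.le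
  have hBA : B ≤ A * (1 + ε / 4) := by
    rw [hA, hB, ← hexp, div_mul_eq_mul_div, ← hsucc]
    exact div_le_div_of_nonneg_right hXj1 hφ.le
  have hA0 : 0 < A := by rw [hA]; positivity
  rw [abs_le]
  constructor
  · -- lower bound
    have h1 : (1 - ε / 4) * A ≤ psiAP x q r := by linarith [k1.1]
    have h2 : (1 - ε) * B ≤ (1 - ε / 4) * A := by
      have e1 : (1 - ε) * B ≤ (1 - ε) * (A * (1 + ε / 4)) :=
        mul_le_mul_of_nonneg_left hBA (by linarith)
      nlinarith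
    linarith
  · have h1 : psiAP x q r ≤ (1 + ε / 4) * Z := by linarith [k2.2]
    have h2 : (1 + ε / 4) * Z ≤ (1 + ε / 4) * (B * (1 + ε / 4)) :=
      mul_le_mul_of_nonneg_left hZB (by linarith)
    nlinarith

end Pool.Agent.D0H48.MO
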